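import Pool.Agent.ZP3.StmtsP

/-!
Squad ZP3, row PUF: one factorisation over the power series ring with coefficients in a finitely
generated subring.
-/

set_option autoImplicit false

namespace Pool.Agent.ZP3.H19

open Polynomial Pool.Agent.ZPT Pool.Agent.ZP3

noncomputable section

/-- a power series all of whose coefficients lie in the subring `R` comes from `R` -/
theorem exists_map (R : Subring Qb) (f : PowerSeries Qb)
    (h : ∀ n, PowerSeries.coeff n f ∈ R) :
    ∃ g : PowerSeries R, PowerSeries.map R.subtype g = f := by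
  refine ⟨PowerSeries.mk fun n => ⟨PowerSeries.coeff n f, h n⟩, ?_⟩
  ext n
  simp

/-- a polynomial all of whose coefficients lie in the subring `R` comes from `R` -/
theorem exists_pmap (R : Subring Qb) (f : Qb[X]) (h : ∀ n, f.coeff n ∈ R) :
    f ∈ lifts R.subtype := by
  rw [lifts_iff_coeff_lifts]
  intro n
  exact ⟨⟨f.coeff n, h n⟩, rfl⟩

theorem fg_map (S : Finset Qb) (g : PowerSeries (Subring.closure (S : Set Qb))) :
    FG (PowerSeries.map (Subring.closure (S : Set Qb)).subtype g) := by
  refine ⟨S, fun n => ?_⟩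
  rw [PowerSeries.coeff_map]
  exact (PowerSeries.coeff n g).2

theorem cc_map (R : Subring Qb) (F : (PowerSeries R)[X]) :
    (F.map (PowerSeries.map R.subtype)).map (PowerSeries.constantCoeff (R := Qb)) =
      (F.map (PowerSeries.constantCoeff (R := R))).map R.subtype := by
  rw [Polynomial.map_map, Polynomial.map_map]
  rfl

theorem puf (hen : HENStmt) : PUFStmt := by
  classical
  intro F hF hFG a h ha hh hco hfac
  obtain ⟨u, v, huv⟩ := hco
  choose S hS using hFG
  let T : Finset Qb := (Finset.range (F.natDegree + 1)).biUnion S ∪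
    (a.support.image a.coeff ∪ h.support.image h.coeff ∪
      (u.support.image u.coeff ∪ v.support.image v.coeff))
  let R : Subring Qb := Subring.closure (T : Set Qb)
  have hco : ∀ f : Qb[X], f.support.image f.coeff ⊆ T → ∀ n, f.coeff n ∈ R := by
    intro f hf n
    by_cases hn : f.coeff n = 0
    · rw [hn]
      exact R.zero_mem
    · exact Subring.subset_closure (Finset.mem_coe.2 (hf (Finset.mem_image_of_mem _
        (mem_support_iff.2 hn))))
  have hFR : ∀ i n, PowerSeries.coeff n (F.coeff i) ∈ R := by
    intro i n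
    by_cases hi : i < F.natDegree + 1
    · refine Subring.closure_mono ?_ (hS i n)
      intro x hx
      refine Finset.mem_coe.2 (Finset.mem_union_left _ ?_)
      exact Finset.mem_biUnion.2 ⟨i, Finset.mem_range.2 hi, Finset.mem_coe.1 hx⟩
    · rw [coeff_eq_zero_of_natDegree_lt (by omega), map_zero]
      exact R.zero_mem
  have hFl : F ∈ lifts (PowerSeries.map R.subtype) := by
    rw [lifts_iff_coeff_lifts]
    intro i
    obtain ⟨g, hg⟩ := exists_map R (F.coeff i) (hFR i)
    exact ⟨g, hg⟩
  have hal : a ∈ lifts R.subtype := exists_pmap R a (hco a fun x hx => by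
    simp only [T, Finset.mem_union]; tauto)
  have hhl : h ∈ lifts R.subtype := exists_pmap R h (hco h fun x hx => by
    simp only [T, Finset.mem_union]; tauto)
  have hul : u ∈ lifts R.subtype := exists_pmap R u (hco u fun x hx => by
    simp only [T, Finset.mem_union]; tauto)
  have hvl : v ∈ lifts R.subtype := exists_pmap R v (hco v fun x hx => by
    simp only [T, Finset.mem_union]; tauto)
  obtain ⟨F', hF', -, hF'm⟩ := lifts_and_natDegree_eq_and_monic hFl hF
  obtain ⟨a', ha', had, ha'm⟩ := lifts_and_natDegree_eq_and_monic hal ha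
  obtain ⟨h', hh', hhd, hh'm⟩ := lifts_and_natDegree_eq_and_monic hhl hh
  obtain ⟨u', hu'⟩ := (mem_lifts _).1 hul
  obtain ⟨v', hv'⟩ := (mem_lifts _).1 hvl
  have hinj : Function.Injective (Polynomial.map R.subtype) :=
    Polynomial.map_injective _ Subtype.val_injective
  have e1 : u' * a' + v' * h' = 1 := by
    refine hinj ?_
    rw [Polynomial.map_add, Polynomial.map_mul, Polynomial.map_mul, hu', hv', ha', hh',
      Polynomial.map_one, huv]
  have e2 : F'.map (PowerSeries.constantCoeff (R := R)) = a' * h' := by
    refine hinj ?_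
    rw [← cc_map, hF', hfac, Polynomial.map_mul, ha', hh']
  obtain ⟨A, H, hA, hH, hAH, hAa, hHh⟩ := hen R F' a' h' u' v' hF'm ha'm hh'm e1 e2
  refine ⟨A.map (PowerSeries.map R.subtype), H.map (PowerSeries.map R.subtype), hA.map _,
    hH.map _, fun i => ?_, fun i => ?_, ?_, ?_, ?_⟩
  · rw [coeff_map]
    exact fg_map T _
  · rw [coeff_map]
    exact fg_map T _
  · rw [← Polynomial.map_mul, ← hAH, hF']
  · rw [hA.natDegree_map, ← had, ← hAa, hA.natDegree_map]
  · rw [hH.natDegree_map, ← hhd, ← hHh, hH.natDegree_map]

end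

end Pool.Agent.ZP3.H19
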